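import Mathlib

/-!
Analytic assembly for the non-symmetric Mahler conjecture (after the flag reduction).
Pure real analysis about finite sequences: least concave majorant, the entropy inequality (Q')
at the optimal levels, and the exact product identity.
-/

namespace Pool.Agent.TH495.MH

open Finset Real

/-- `h(p) = p log p + (1-p) log (1-p)` -/
noncomputable def lh (p : ℝ) : ℝ := p * Real.log p + (1 - p) * Real.log (1 - p)

/-- Existence of the least concave majorant on `{0..n}`. -/
theorem exists_majorant (n : ℕ) (w : ℕ → ℝ) :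
    ∃ x : ℕ → ℝ, (∀ m ≤ n, w m ≤ x m) ∧ x 0 = w 0 ∧ x n = w n ∧
      (∀ m, 1 ≤ m → m < n → x (m - 1) + x (m + 1) ≤ 2 * x m) ∧
      (∀ m, 1 ≤ m → m < n → w m < x m → x (m - 1) + x (m + 1) = 2 * x m) := by
  classical
  obtain ⟨M, hM⟩ : ∃ M : ℝ, ∀ m ≤ n, w m ≤ M := by
    refine ⟨∑ m ∈ range (n + 1), |w m|, fun m hm => ?_⟩
    calc w m ≤ |w m| := le_abs_self _
      _ ≤ _ := single_le_sum (f := fun m => |w m|) (fun i _ => abs_nonneg _)
            (mem_range.2 (Nat.lt_succ_of_le hm))
  let lo : ℕ → ℝ := fun m => if m ≤ n then w m else 0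
  let up : ℕ → ℝ := fun m => if m ≤ n then M else 0
  let K : Set (ℕ → ℝ) := {y | (∀ i, lo i ≤ y i) ∧ (∀ i, y i ≤ up i) ∧
    (∀ m : ℕ, 1 ≤ m → m < n → y (m - 1) + y (m + 1) ≤ 2 * y m)}
  have hKc : IsCompact K := by
    refine IsCompact.of_isClosed_subset (isCompact_univ_pi (s := fun i : ℕ => Set.Icc (lo i) (up i))
      fun i => isCompact_Icc) ?_ ?_
    · have h1 : IsClosed {y : ℕ → ℝ | ∀ i, lo i ≤ y i} := by
        simp only [Set.ofPred_forall]
        exact isClosed_iInter fun i => isClosed_le continuous_const (continuous_apply i)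
      have h2 : IsClosed {y : ℕ → ℝ | ∀ i, y i ≤ up i} := by
        simp only [Set.ofPred_forall]
        exact isClosed_iInter fun i => isClosed_le (continuous_apply i) continuous_const
      have h3 : IsClosed {y : ℕ → ℝ | ∀ m : ℕ, 1 ≤ m → m < n →
          y (m - 1) + y (m + 1) ≤ 2 * y m} := by
        simp only [Set.ofPred_forall]
        refine isClosed_iInter fun m => isClosed_iInter fun h1 => isClosed_iInter fun h2 => ?_
        exact isClosed_le (by fun_prop) (by fun_prop)
      exact (h1.inter (h2.inter h3))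
    · intro y hy i _
      exact ⟨hy.1 i, hy.2.1 i⟩
  have hKne : K.Nonempty := by
    refine ⟨up, fun i => ?_, fun i => le_rfl, ?_⟩
    · by_cases hi : i ≤ n
      · simp only [lo, up, hi, if_true]; exact hM i hi
      · simp only [lo, up, hi, if_false]; exact le_rfl
    · intro m h1 h2
      have e1 : m - 1 ≤ n := by omega
      have e2 : m + 1 ≤ n := by omega
      have e3 : m ≤ n := by omega
      simp only [up, e1, e2, e3, if_true]
      linarith
  obtain ⟨y, hyK, hymin⟩ := hKc.exists_isMinOn hKne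
    (f := fun y : ℕ → ℝ => ∑ i ∈ range (n + 1), y i) (by fun_prop)
  have hlo : ∀ m ≤ n, w m ≤ y m := by
    intro m hm
    have := hyK.1 m
    simp only [lo, hm, if_true] at this
    exact this
  have key : ∀ j ≤ n, w j < y j →
      (1 ≤ j → j < n → y (j - 1) + y (j + 1) < 2 * y j) → False := by
    intro j hjn hj hk
    obtain ⟨ε, hε, hεw, hεk⟩ : ∃ ε : ℝ, 0 < ε ∧ ε ≤ y j - w j ∧
        (1 ≤ j → j < n → y (j - 1) + y (j + 1) ≤ 2 * y j - 2 * ε) := by
      by_cases hh : 1 ≤ j ∧ j < n
      · have := hk hh.1 hh.2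
        refine ⟨min (y j - w j) ((2 * y j - (y (j - 1) + y (j + 1))) / 2),
          lt_min (by linarith) (by linarith), min_le_left _ _, fun h1 h2 => ?_⟩
        have := min_le_right (y j - w j) ((2 * y j - (y (j - 1) + y (j + 1))) / 2)
        linarith
      · exact ⟨y j - w j, by linarith, le_rfl, fun h1 h2 => absurd ⟨h1, h2⟩ hh⟩
    let z : ℕ → ℝ := Function.update y j (y j - ε)
    have hzj : z j = y j - ε := by simp [z]
    have hzne : ∀ i, i ≠ j → z i = y i := fun i h => by simp [z, h]
    have hz : ∀ i, z i ≤ y i := by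
      intro i
      by_cases h : i = j
      · rw [h, hzj]; linarith
      · rw [hzne i h]
    have hzK : z ∈ K := by
      refine ⟨fun i => ?_, fun i => (hz i).trans (hyK.2.1 i), fun m h1 h2 => ?_⟩
      · by_cases h : i = j
        · rw [h, hzj]
          simp only [lo, hjn, if_true]
          linarith
        · rw [hzne i h]; exact hyK.1 i
      · by_cases h : m = j
        · rw [h, hzj, hzne (j - 1) (by omega), hzne (j + 1) (by omega)]
          have := hεk (h ▸ h1) (h ▸ h2)
          linarith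
        · rw [hzne _ h]
          have := hyK.2.2 m h1 h2
          have a1 := hz (m - 1)
          have a2 := hz (m + 1)
          linarith
    have hlt : ∑ i ∈ range (n + 1), z i < ∑ i ∈ range (n + 1), y i := by
      refine sum_lt_sum (fun i _ => hz i) ⟨j, mem_range.2 (by omega), ?_⟩
      rw [hzj]; linarith
    have h3 := hymin hzK
    have h4 : ∑ i ∈ range (n + 1), y i ≤ ∑ i ∈ range (n + 1), z i := h3
    linarith
  refine ⟨y, hlo, ?_, ?_, ?_, ?_⟩
  · by_contra hne
    exact key 0 (Nat.zero_le _) (lt_of_le_of_ne (hlo 0 (Nat.zero_le _)) (Ne.symm hne))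
      (fun h1 => by omega)
  · by_contra hne
    exact key n le_rfl (lt_of_le_of_ne (hlo n le_rfl) (Ne.symm hne)) (fun h1 h2 => by omega)
  · intro m h1 h2
    exact hyK.2.2 m h1 h2
  · intro m h1 h2 hw
    by_contra hne
    exact key m h2.le hw (fun h1 h2 => lt_of_le_of_ne (hyK.2.2 m h1 h2) hne)

/-- increments of a concave sequence are antitone -/
theorem incr_antitone {n : ℕ} {x : ℕ → ℝ}
    (hc : ∀ m, 1 ≤ m → m < n → x (m - 1) + x (m + 1) ≤ 2 * x m) :
    ∀ a b, a ≤ b → b < n → x (b + 1) - x b ≤ x (a + 1) - x a := by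
  intro a b hab
  induction b, hab using Nat.le_induction with
  | base => intro _; exact le_rfl
  | succ b hab ih =>
    intro hb
    have h1 := ih (by omega)
    have h2 := hc (b + 1) (by omega) hb
    simp only [Nat.add_sub_cancel] at h2
    linarith

/-- supporting line of a concave sequence -/
theorem exists_slope {n : ℕ} {x : ℕ → ℝ} (hn : 1 ≤ n)
    (hc : ∀ m, 1 ≤ m → m < n → x (m - 1) + x (m + 1) ≤ 2 * x m) (i : ℕ) (hi : i ≤ n) :
    ∃ s : ℝ, ∀ m ≤ n, x m ≤ x i + s * ((m : ℝ) - i) := by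
  have hanti := incr_antitone hc
  -- general: telescoping
  have up : ∀ s : ℝ, (∀ a, i ≤ a → a < n → x (a + 1) - x a ≤ s) → ∀ m, i ≤ m → m ≤ n →
      x m ≤ x i + s * ((m : ℝ) - i) := by
    intro s hs m hm
    induction m, hm using Nat.le_induction with
    | base => intro _; simp
    | succ m hm ih =>
      intro hmn
      have h1 := ih (by omega)
      have h2 := hs m hm (by omega)
      push_cast
      linarith
  have down : ∀ s : ℝ, (∀ a, a < i → s ≤ x (a + 1) - x a) → ∀ d, d ≤ i →
      x (i - d) ≤ x i + s * (((i - d : ℕ) : ℝ) - i) := by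
    intro s hs d
    induction d with
    | zero => intro _; simp
    | succ d ih =>
      intro hd
      have h1 := ih (by omega)
      have h2 := hs (i - (d + 1)) (by omega)
      have e : i - (d + 1) + 1 = i - d := by omega
      rw [e] at h2
      have c1 : ((i - (d + 1) : ℕ) : ℝ) = (i : ℝ) - (d + 1) := by
        rw [Nat.cast_sub hd]; push_cast; ring
      have c2 : ((i - d : ℕ) : ℝ) = (i : ℝ) - d := by
        rw [Nat.cast_sub (by omega)]
      rw [c1]; rw [c2] at h1
      linarith
  by_cases hin : i < n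
  · refine ⟨x (i + 1) - x i, fun m hm => ?_⟩
    by_cases h : i ≤ m
    · exact up _ (fun a ha han => hanti i a ha han) m h hm
    · have := down (x (i + 1) - x i) (fun a ha => hanti a i ha.le hin) (i - m) (by omega)
      have e : i - (i - m) = m := by omega
      rwa [e] at this
  · have hi' : i = n := by omega
    subst hi'
    refine ⟨x (i - 1 + 1) - x (i - 1), fun m hm => ?_⟩
    have := down (x (i - 1 + 1) - x (i - 1)) (fun a ha => hanti a (i - 1) (by omega) (by omega))
      (i - m) (by omega)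
    have e : i - (i - m) = m := by omega
    rwa [e] at this

/-- the majorant is large because the hull volumes are large -/
theorem majorant_lower {n : ℕ} (hn : 1 ≤ n) {w x : ℕ → ℝ} {kap a : ℝ} (ha : 0 < a)
    (hk : 0 < kap)
    (hwx : ∀ m ≤ n, w m ≤ x m)
    (hc : ∀ m, 1 ≤ m → m < n → x (m - 1) + x (m + 1) ≤ 2 * x m)
    (hull : ∀ f : ℝ, 0 < f → f < 1 →
      kap ≤ a * ∑ m ∈ range (n + 1), (1 - f) ^ (n - m) * f ^ m * Real.exp (w m))
    (i : ℕ) (hi : i ≤ n) :
    Real.log (kap / (a * (n + 1))) + Real.log (n.choose i) ≤ x i := by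
  obtain ⟨s, hs⟩ := exists_slope hn hc i hi
  set f : ℝ := 1 / (1 + Real.exp s) with hf
  have hes := Real.exp_pos s
  have hf0 : 0 < f := by positivity
  have hf1 : f < 1 := by
    rw [hf, div_lt_one (by positivity)]; linarith
  have hratio : (1 - f) = Real.exp s * f := by
    rw [hf]; field_simp; ring
  have h1f : 0 < 1 - f := by linarith
  have hb := hull f hf0 hf1
  have term : ∀ m ∈ range (n + 1), (1 - f) ^ (n - m) * f ^ m * Real.exp (w m) ≤
      Real.exp (x i) * ((1 - f) ^ (n - i) * f ^ i) := by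
    intro m hm
    have hmn : m ≤ n := by rw [mem_range] at hm; omega
    have h1 : Real.exp (w m) ≤ Real.exp (x i + s * ((m : ℝ) - i)) :=
      Real.exp_le_exp.2 ((hwx m hmn).trans (hs m hmn))
    have h2 : (1 - f) ^ (n - m) * f ^ m * Real.exp (x i + s * ((m : ℝ) - i)) =
        Real.exp (x i) * ((1 - f) ^ (n - i) * f ^ i) := by
      have e1 : (1 - f) ^ (n - m) * f ^ m = Real.exp (s * (n - m)) * f ^ n := by
        rw [hratio, mul_pow, mul_assoc, ← pow_add, Nat.sub_add_cancel hmn, ← Real.exp_nat_mul,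
          Nat.cast_sub hmn]
        ring_nf
      have e2 : (1 - f) ^ (n - i) * f ^ i = Real.exp (s * (n - i)) * f ^ n := by
        rw [hratio, mul_pow, mul_assoc, ← pow_add, Nat.sub_add_cancel hi, ← Real.exp_nat_mul,
          Nat.cast_sub hi]
        ring_nf
      rw [e1, e2]
      have : Real.exp (s * (n - m)) * f ^ n * Real.exp (x i + s * ((m : ℝ) - i)) =
          f ^ n * (Real.exp (s * (n - m)) * Real.exp (x i + s * ((m : ℝ) - i))) := by ring
      rw [this, ← Real.exp_add]
      have : Real.exp (x i) * (Real.exp (s * (n - i)) * f ^ n) =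
          f ^ n * (Real.exp (x i) * Real.exp (s * (n - i))) := by ring
      rw [this, ← Real.exp_add]
      congr 2
      ring
    calc (1 - f) ^ (n - m) * f ^ m * Real.exp (w m)
        ≤ (1 - f) ^ (n - m) * f ^ m * Real.exp (x i + s * ((m : ℝ) - i)) :=
          mul_le_mul_of_nonneg_left h1 (by positivity)
      _ = _ := h2
  have hsum : ∑ m ∈ range (n + 1), (1 - f) ^ (n - m) * f ^ m * Real.exp (w m) ≤
      (n + 1) * (Real.exp (x i) * ((1 - f) ^ (n - i) * f ^ i)) := by
    calc _ ≤ ∑ _m ∈ range (n + 1), Real.exp (x i) * ((1 - f) ^ (n - i) * f ^ i) :=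
          sum_le_sum term
      _ = _ := by rw [sum_const, card_range, nsmul_eq_mul]; push_cast; ring
  have hbin : (n.choose i : ℝ) * ((1 - f) ^ (n - i) * f ^ i) ≤ 1 := by
    have h := add_pow f (1 - f) n
    have h1 : f + (1 - f) = 1 := by ring
    rw [h1, one_pow] at h
    have := single_le_sum (f := fun m => f ^ m * (1 - f) ^ (n - m) * (n.choose m : ℝ))
      (s := range (n + 1)) (fun m _ => by positivity) (mem_range.2 (Nat.lt_succ_of_le hi))
    calc (n.choose i : ℝ) * ((1 - f) ^ (n - i) * f ^ i) = f ^ i * (1 - f) ^ (n - i) * (n.choose i : ℝ) := by ring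
      _ ≤ _ := this
      _ = 1 := h.symm
  have hci : (0 : ℝ) < n.choose i := by exact_mod_cast Nat.choose_pos hi
  have hn1 : (0 : ℝ) < (n : ℝ) + 1 := by positivity
  have hfin : kap / (a * (n + 1)) * (n.choose i) ≤ Real.exp (x i) := by
    have h1 : kap ≤ a * ((n + 1) * (Real.exp (x i) * ((1 - f) ^ (n - i) * f ^ i))) :=
      hb.trans (mul_le_mul_of_nonneg_left hsum ha.le)
    have h2 : kap / (a * (n + 1)) ≤ Real.exp (x i) * ((1 - f) ^ (n - i) * f ^ i) := by
      rw [div_le_iff₀ (by positivity)]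
      calc kap ≤ _ := h1
        _ = _ := by ring
    calc kap / (a * (n + 1)) * (n.choose i)
        ≤ Real.exp (x i) * ((1 - f) ^ (n - i) * f ^ i) * (n.choose i) :=
          mul_le_mul_of_nonneg_right h2 hci.le
      _ = Real.exp (x i) * ((n.choose i : ℝ) * ((1 - f) ^ (n - i) * f ^ i)) := by ring
      _ ≤ Real.exp (x i) * 1 := mul_le_mul_of_nonneg_left hbin (Real.exp_pos _).le
      _ = _ := mul_one _
  rw [← Real.log_mul (by positivity) hci.ne']
  rw [Real.log_le_iff_le_exp (by positivity)]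
  exact hfin

/-- Gibbs: the optimal level minimises `lh p + p δ`. -/
theorem lh_min (d q : ℝ) (hq0 : 0 < q) (hq1 : q < 1) :
    lh (1 / (1 + Real.exp d)) + 1 / (1 + Real.exp d) * d ≤ lh q + q * d := by
  have hE := Real.exp_pos d
  set P : ℝ := 1 / (1 + Real.exp d) with hP
  have hP0 : 0 < P := by positivity
  have h1P : 1 - P = Real.exp d * P := by rw [hP]; field_simp; ring
  have h1P0 : 0 < 1 - P := by rw [h1P]; positivity
  have hl : Real.log (1 - P) = d + Real.log P := by
    rw [h1P, Real.log_mul hE.ne' hP0.ne', Real.log_exp]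
  have h1q : 0 < 1 - q := by linarith
  have a1 : Real.log (P / q) ≤ P / q - 1 := Real.log_le_sub_one_of_pos (by positivity)
  have a2 : Real.log ((1 - P) / (1 - q)) ≤ (1 - P) / (1 - q) - 1 :=
    Real.log_le_sub_one_of_pos (by positivity)
  rw [Real.log_div hP0.ne' hq0.ne'] at a1
  rw [Real.log_div h1P0.ne' h1q.ne'] at a2
  have b1 : q * (Real.log P - Real.log q) ≤ P - q := by
    calc q * (Real.log P - Real.log q) ≤ q * (P / q - 1) := mul_le_mul_of_nonneg_left a1 hq0.le
      _ = P - q := by field_simp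
  have b2 : (1 - q) * (Real.log (1 - P) - Real.log (1 - q)) ≤ (1 - P) - (1 - q) := by
    calc (1 - q) * (Real.log (1 - P) - Real.log (1 - q)) ≤ (1 - q) * ((1 - P) / (1 - q) - 1) :=
          mul_le_mul_of_nonneg_left a2 h1q.le
      _ = (1 - P) - (1 - q) := by field_simp
  unfold lh
  rw [hl] at b2 ⊢
  have e1 : P * Real.log P + (1 - P) * (d + Real.log P) + P * d = d + Real.log P := by ring
  rw [e1]
  nlinarith [b1, b2]

/-- `∑ log m! + ∑ j log j = (n+1) log n!` -/
theorem log_superfactorial (n : ℕ) :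
    ∑ m ∈ range (n + 1), Real.log (m.factorial) + ∑ j ∈ range n, ((j : ℝ) + 1) * Real.log (j + 1) =
      (n + 1) * Real.log (n.factorial) := by
  induction n with
  | zero => simp
  | succ n ih =>
    rw [sum_range_succ, sum_range_succ (fun j : ℕ => ((j : ℝ) + 1) * Real.log (j + 1))]
    have hf : Real.log ((n + 1).factorial) = Real.log (n + 1) + Real.log (n.factorial) := by
      rw [Nat.factorial_succ]; push_cast
      rw [Real.log_mul (by positivity) (by exact_mod_cast (Nat.factorial_ne_zero n))]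
    rw [hf]
    push_cast
    linarith

/-- product identity in logarithmic form -/
theorem log_identity (n : ℕ) :
    ∑ m ∈ range n, lh (((m : ℝ) + 1) / (n + 1)) -
      (1 / ((n : ℝ) + 1)) * ∑ m ∈ range (n + 1), Real.log (n.choose m) =
      Real.log (n.factorial) - n * Real.log (n + 1) := by
  have hn1 : (0 : ℝ) < (n : ℝ) + 1 := by positivity
  have h1 : ∑ m ∈ range n, lh (((m : ℝ) + 1) / (n + 1)) =
      (2 / ((n : ℝ) + 1)) * (∑ j ∈ range n, ((j : ℝ) + 1) * Real.log (j + 1)) -
        n * Real.log (n + 1) := by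
    have hA : ∑ m ∈ range n, (((m : ℝ) + 1) / (n + 1)) * Real.log (((m : ℝ) + 1) / (n + 1)) =
        (1 / ((n : ℝ) + 1)) * (∑ j ∈ range n, ((j : ℝ) + 1) * Real.log (j + 1)) -
        (n / 2) * Real.log (n + 1) := by
      have e : ∀ m ∈ range n, (((m : ℝ) + 1) / (n + 1)) * Real.log (((m : ℝ) + 1) / (n + 1)) =
          (1 / ((n : ℝ) + 1)) * (((m : ℝ) + 1) * Real.log (m + 1)) -
            (Real.log (n + 1) / (n + 1)) * ((m : ℝ) + 1) := by
        intro m _
        rw [Real.log_div (by positivity) hn1.ne']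
        field_simp
      rw [sum_congr rfl e, sum_sub_distrib, ← mul_sum, ← mul_sum]
      have hs : ∑ m ∈ range n, ((m : ℝ) + 1) = n * (n + 1) / 2 := by
        clear e hn1
        induction n with
        | zero => simp
        | succ n ih => rw [sum_range_succ, ih]; push_cast; ring
      rw [hs]
      field_simp
    have hB : ∑ m ∈ range n, (1 - ((m : ℝ) + 1) / (n + 1)) * Real.log (1 - ((m : ℝ) + 1) / (n + 1)) =
        ∑ m ∈ range n, (((m : ℝ) + 1) / (n + 1)) * Real.log (((m : ℝ) + 1) / (n + 1)) := by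
      rw [← sum_range_reflect]
      refine sum_congr rfl fun m hm => ?_
      rw [mem_range] at hm
      have e : 1 - (((n - 1 - m : ℕ) : ℝ) + 1) / (n + 1) = ((m : ℝ) + 1) / (n + 1) := by
        rw [Nat.cast_sub (by omega), Nat.cast_sub (by omega)]
        field_simp
        push_cast
        ring
      rw [e]
    unfold lh
    rw [sum_add_distrib, hB, hA]
    ring
  have h2 : ∑ m ∈ range (n + 1), Real.log (n.choose m) =
      2 * (∑ j ∈ range n, ((j : ℝ) + 1) * Real.log (j + 1)) - (n + 1) * Real.log (n.factorial) := by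
    have e : ∀ m ∈ range (n + 1), Real.log (n.choose m) =
        Real.log (n.factorial) - Real.log (m.factorial) - Real.log ((n - m).factorial) := by
      intro m hm
      have hmn : m ≤ n := by rw [mem_range] at hm; omega
      have := Nat.choose_mul_factorial_mul_factorial hmn
      have h3 : (n.factorial : ℝ) = n.choose m * m.factorial * (n - m).factorial := by
        exact_mod_cast this.symm
      have p1 : (n.choose m : ℝ) ≠ 0 := by exact_mod_cast (Nat.choose_pos hmn).ne'
      have p2 : (m.factorial : ℝ) ≠ 0 := by exact_mod_cast (Nat.factorial_ne_zero m)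
      have p3 : ((n - m).factorial : ℝ) ≠ 0 := by exact_mod_cast (Nat.factorial_ne_zero _)
      rw [h3, Real.log_mul (mul_ne_zero p1 p2) p3, Real.log_mul p1 p2]
      ring
    rw [sum_congr rfl e, sum_sub_distrib, sum_sub_distrib]
    have hr : ∑ m ∈ range (n + 1), Real.log ((n - m).factorial) =
        ∑ m ∈ range (n + 1), Real.log (m.factorial) := by
      rw [← sum_range_reflect]
      refine sum_congr rfl fun m hm => ?_
      rw [mem_range] at hm
      congr 3
      omega
    rw [hr]
    have h4 := log_superfactorial n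
    have h5 : ∑ m ∈ range (n + 1), Real.log (n.factorial) = (n + 1) * Real.log (n.factorial) := by
      rw [sum_const, card_range, nsmul_eq_mul]; push_cast; ring
    rw [h5]
    linarith
  rw [h1, h2]
  field_simp
  ring

/-- Abel summation -/
theorem abel (p x : ℕ → ℝ) (n : ℕ) (hn : 1 ≤ n) :
    p n * x n - ∑ m ∈ Ico 1 n, (p (m + 1) - p m) * x m =
      ∑ m ∈ Ico 1 (n + 1), p m * (x m - x (m - 1)) + p 1 * x 0 := by
  induction n, hn using Nat.le_induction with
  | base => simp; ring
  | succ n hn ih =>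
    rw [sum_Ico_succ_top (by omega), sum_Ico_succ_top (by omega), Nat.add_sub_cancel]
    linarith

/-- MAIN ASSEMBLY.  `w m = log v_m` (`v_m` normalised section volumes, `v_0 = 1`, `v_n ≤ 1`).
`hull`: the hulls `D_f` have volume `≥ kap` and `≤ a ∑ (1-f)^(n-m) f^m v_m`.
`Q`: the entropy inequality (Q').  Conclusion: `J kap ≤ (n+1) (n!/(n+1)^n) a`. -/
theorem assemble {n : ℕ} (hn : 1 ≤ n) (w : ℕ → ℝ) (kap a J : ℝ) (ha : 0 < a) (hk : 0 < kap)
    (hka : kap ≤ a) (hJ : 0 < J) (hw0 : w 0 = 0) (hwn : w n ≤ 0)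
    (hull : ∀ f : ℝ, 0 < f → f < 1 →
      kap ≤ a * ∑ m ∈ range (n + 1), (1 - f) ^ (n - m) * f ^ m * Real.exp (w m))
    (Q : ∀ p : ℕ → ℝ, (∀ m, 0 < p m ∧ p m < 1) → (∀ m, 1 ≤ m → m < n → p m ≤ p (m + 1)) →
      Real.log J + ∑ m ∈ Ico 1 n, (p (m + 1) - p m) * w m ≤
        ∑ m ∈ Ico 1 (n + 1), lh (p m) + p n * w n) :
    J * kap ≤ (n + 1) * (n.factorial / ((n : ℝ) + 1) ^ n) * a := by
  obtain ⟨x, hwx, hx0, hxn, hc, hcon⟩ := exists_majorant n w
  have hn1 : (0 : ℝ) < (n : ℝ) + 1 := by positivity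
  have hanti := incr_antitone hc
  set d : ℕ → ℝ := fun m => x m - x (m - 1) with hd
  set p : ℕ → ℝ := fun m => 1 / (1 + Real.exp (d m)) with hp
  have hp01 : ∀ m, 0 < p m ∧ p m < 1 := by
    intro m
    have := Real.exp_pos (d m)
    refine ⟨by simp only [hp]; positivity, ?_⟩
    simp only [hp]
    rw [div_lt_one (by positivity)]; linarith
  have hdanti : ∀ m, 1 ≤ m → m < n → d (m + 1) ≤ d m := by
    intro m h1 h2
    have := hc m h1 h2
    simp only [hd, Nat.add_sub_cancel]
    linarith
  have hpmono : ∀ m, 1 ≤ m → m < n → p m ≤ p (m + 1) := by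
    intro m h1 h2
    simp only [hp]
    have h3 := Real.exp_le_exp.2 (hdanti m h1 h2)
    have := Real.exp_pos (d (m + 1))
    exact one_div_le_one_div_of_le (by positivity) (by linarith)
  have hQ := Q p hp01 hpmono
  have hsum : ∑ m ∈ Ico 1 n, (p (m + 1) - p m) * w m = ∑ m ∈ Ico 1 n, (p (m + 1) - p m) * x m := by
    refine sum_congr rfl fun m hm => ?_
    rw [mem_Ico] at hm
    rcases (hwx m hm.2.le).lt_or_eq with h | h
    · have h1 := hcon m hm.1 hm.2 h
      have h2 : d (m + 1) = d m := by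
        simp only [hd, Nat.add_sub_cancel]; linarith
      have h3 : p (m + 1) = p m := by simp only [hp, h2]
      rw [h3]; ring
    · rw [h]
  rw [hsum, ← hxn] at hQ
  have hab := abel p x n hn
  rw [hx0, hw0, mul_zero, add_zero] at hab
  have h1 : Real.log J ≤ ∑ m ∈ Ico 1 (n + 1), (lh (p m) + p m * d m) := by
    rw [sum_add_distrib]
    have : ∑ m ∈ Ico 1 (n + 1), p m * d m = ∑ m ∈ Ico 1 (n + 1), p m * (x m - x (m - 1)) := rfl
    rw [this, ← hab]
    linarith
  set q : ℕ → ℝ := fun m => (m : ℝ) / (n + 1) with hq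
  have h2 : ∑ m ∈ Ico 1 (n + 1), (lh (p m) + p m * d m) ≤
      ∑ m ∈ Ico 1 (n + 1), (lh (q m) + q m * d m) := by
    refine sum_le_sum fun m hm => ?_
    rw [mem_Ico] at hm
    have hm1 : (0 : ℝ) < m := by exact_mod_cast hm.1
    have hm2 : (m : ℝ) < n + 1 := by exact_mod_cast hm.2
    refine lh_min (d m) (q m) (by simp only [hq]; positivity) ?_
    simp only [hq]
    rw [div_lt_one hn1]; exact hm2
  have habq := abel q x n hn
  rw [hx0, hw0, mul_zero, add_zero] at habq
  have h3 : ∑ m ∈ Ico 1 (n + 1), (lh (q m) + q m * d m) =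
      ∑ m ∈ Ico 1 (n + 1), lh (q m) + (q n * x n - ∑ m ∈ Ico 1 n, (q (m + 1) - q m) * x m) := by
    rw [sum_add_distrib, habq]
  have hqd : ∑ m ∈ Ico 1 n, (q (m + 1) - q m) * x m = (1 / ((n : ℝ) + 1)) * ∑ m ∈ Ico 1 n, x m := by
    rw [mul_sum]
    refine sum_congr rfl fun m _ => ?_
    simp only [hq]
    push_cast
    ring
  set lam : ℝ := Real.log (kap / (a * (n + 1))) with hlam
  have hlow : ∀ i ≤ n, lam + Real.log (n.choose i) ≤ x i :=
    fun i hi => majorant_lower hn ha hk hwx hc hull i hi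
  have hlam0 : lam ≤ 0 := by
    rw [hlam]
    refine Real.log_nonpos (by positivity) ?_
    rw [div_le_one (by positivity)]
    nlinarith [(Nat.cast_nonneg n : (0:ℝ) ≤ n)]
  have h4 : ∑ m ∈ Ico 1 n, (lam + Real.log (n.choose m)) ≤ ∑ m ∈ Ico 1 n, x m :=
    sum_le_sum fun m hm => hlow m (by rw [mem_Ico] at hm; omega)
  have h5 : ∑ m ∈ Ico 1 n, (lam + Real.log (n.choose m)) =
      ((n : ℝ) - 1) * lam + ∑ m ∈ range (n + 1), Real.log (n.choose m) := by
    rw [sum_add_distrib, sum_const, Nat.card_Ico, nsmul_eq_mul, Nat.cast_sub hn]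
    have e1 : ∑ m ∈ range (n + 1), Real.log (n.choose m) =
        ∑ m ∈ Ico 1 n, Real.log (n.choose m) := by
      rw [sum_range_succ, Finset.range_eq_Ico, sum_eq_sum_Ico_succ_bot (by omega)]
      simp
    rw [e1]
    push_cast
    ring
  have h6 : ∑ m ∈ Ico 1 (n + 1), lh (q m) = ∑ m ∈ range n, lh (((m : ℝ) + 1) / (n + 1)) := by
    rw [Finset.sum_Ico_eq_sum_range, Nat.add_sub_cancel]
    refine sum_congr rfl fun m _ => ?_
    simp only [hq]
    push_cast
    congr 2
    ring
  have h7 := log_identity n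
  have hqn : 0 ≤ q n := by simp only [hq]; positivity
  have hxn0 : x n ≤ 0 := by rw [hxn]; exact hwn
  have h8 : q n * x n ≤ 0 := mul_nonpos_of_nonneg_of_nonpos hqn hxn0
  have h9 : (1 / ((n : ℝ) + 1)) * (((n : ℝ) - 1) * lam + ∑ m ∈ range (n + 1), Real.log (n.choose m)) ≤
      (1 / ((n : ℝ) + 1)) * ∑ m ∈ Ico 1 n, x m :=
    mul_le_mul_of_nonneg_left (h5 ▸ h4) (by positivity)
  have h10 : lam ≤ (1 / ((n : ℝ) + 1)) * (((n : ℝ) - 1) * lam) := by
    have : (1 / ((n : ℝ) + 1)) * (((n : ℝ) - 1) * lam) - lam = (-2 / ((n : ℝ) + 1)) * lam := by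
      field_simp; ring
    have h11 : 0 ≤ (-2 / ((n : ℝ) + 1)) * lam := by
      rw [neg_div, neg_mul]
      have : 2 / ((n : ℝ) + 1) * lam ≤ 0 := mul_nonpos_of_nonneg_of_nonpos (by positivity) hlam0
      linarith
    linarith
  have hfin : Real.log J ≤ -lam + (Real.log (n.factorial) - n * Real.log (n + 1)) := by
    rw [mul_add] at h9
    rw [h3, hqd] at h2
    rw [h6] at h2
    linarith
  have hfac : (0 : ℝ) < n.factorial := by exact_mod_cast n.factorial_pos
  have hexp : J ≤ Real.exp (-lam + (Real.log (n.factorial) - n * Real.log (n + 1))) := by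
    rw [← Real.log_le_iff_le_exp hJ]; exact hfin
  have hval : Real.exp (-lam + (Real.log (n.factorial) - n * Real.log (n + 1))) =
      (a * (n + 1) / kap) * (n.factorial / ((n : ℝ) + 1) ^ n) := by
    rw [Real.exp_add, Real.exp_neg, hlam, Real.exp_log (by positivity), Real.exp_sub,
      Real.exp_log hfac, ← Real.log_pow, Real.exp_log (by positivity), inv_div]
  rw [hval] at hexp
  calc J * kap ≤ ((a * (n + 1) / kap) * (n.factorial / ((n : ℝ) + 1) ^ n)) * kap :=
        mul_le_mul_of_nonneg_right hexp hk.le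
    _ = _ := by field_simp

end Pool.Agent.TH495.MH
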